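import Pool.Agent.Helper24.KK.GoalsC

/-! Packet KK-EXN: the exponents `ε`, `τ`. -/

set_option autoImplicit false

namespace Pool.Agent.Helper51.KK

open Pool.Agent.Helper24.KK

theorem exn : EXN := by
  intro a b ha0 ha hb0 hb
  have hm : 0 < min (2 / 3 - a) (2 / 3 - b) := lt_min (by linarith) (by linarith)
  obtain ⟨ε, hε⟩ : ∃ ε : ℝ, ε = min (2 / 3 - a) (2 / 3 - b) / 42 := ⟨_, rfl⟩
  have h0 : 0 < ε := by rw [hε]; positivity
  have h1 : 42 * ε ≤ 2 / 3 - a := by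
    rw [hε]
    have := min_le_left (2 / 3 - a) (2 / 3 - b)
    linarith
  have h2 : 42 * ε ≤ 2 / 3 - b := by
    rw [hε]
    have := min_le_right (2 / 3 - a) (2 / 3 - b)
    linarith
  have hb1 : 0 < 1 - b := by linarith
  have hτ : (1 - a + 2 * ε) / (1 - b) * (1 - b) = 1 - a + 2 * ε :=
    div_mul_cancel₀ _ hb1.ne'
  refine ⟨ε, (1 - a + 2 * ε) / (1 - b), ha0, by linarith, hb0, by linarith, h0, hτ,
    by linarith, ?_⟩
  refine le_of_mul_le_mul_right ?_ hb1
  rw [add_mul, hτ]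
  have h3 : (2 / 3 - b) * (1 / 3) ≤ (2 / 3 - b) * (1 - a) :=
    mul_le_mul_of_nonneg_left (by linarith) (by linarith)
  have h4 : 0 ≤ ε * b := by positivity
  nlinarith

end Pool.Agent.Helper51.KK
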